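import Pool.Agent.Helper50.CT.Goals

/-!
# Packet CT-PROJ: projecting a separated set to the quotient
-/

set_option autoImplicit false

namespace Pool.Agent.Helper34.CT

open Pool.Agent.Helper50.CT

/-- A maximal separated subset of a finite set. -/
theorem exists_max_sep {T : Type} [MetricSpace T] (P : Finset T) (s : ℝ) (hs : 0 < s) :
    ∃ S4 : Finset T, S4 ⊆ P ∧ Sep s S4 ∧ ∀ w ∈ P, ∃ z ∈ S4, dist w z < s := by
  classical
  let F : Finset (Finset T) := P.powerset.filter (fun S => Sep s S)
  have hne : F.Nonempty := ⟨∅, by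
    simp only [F, Finset.mem_filter, Finset.empty_mem_powerset, true_and]
    intro x hx
    exact absurd hx (Finset.notMem_empty x)⟩
  obtain ⟨S4, hS4, hmax⟩ := Finset.exists_max_image F (fun S => S.card) hne
  have h1 : S4 ⊆ P := Finset.mem_powerset.1 (Finset.mem_filter.1 hS4).1
  have h2 : Sep s S4 := (Finset.mem_filter.1 hS4).2
  refine ⟨S4, h1, h2, ?_⟩
  intro w hw
  by_contra hcon
  push Not at hcon
  have hwS : w ∉ S4 := by
    intro h
    have := hcon w h
    rw [dist_self] at this
    linarith
  have hins : insert w S4 ∈ F := by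
    refine Finset.mem_filter.2 ⟨Finset.mem_powerset.2 (Finset.insert_subset hw h1), ?_⟩
    intro x hx y hy hxy
    rcases Finset.mem_insert.1 hx with rfl | hx'
    · rcases Finset.mem_insert.1 hy with rfl | hy'
      · exact absurd rfl hxy
      · exact hcon y hy'
    · rcases Finset.mem_insert.1 hy with rfl | hy'
      · rw [dist_comm]; exact hcon x hx'
      · exact h2 x hx' y hy' hxy
  have := hmax _ hins
  simp only [Finset.card_insert_of_notMem hwS] at this
  omega

theorem goalPROJ : StmtPROJ := by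
  intro n X T _ _ _ π hc x ρ τ S3 hτ hτρ hball hsep
  classical
  have : Nonempty T := ⟨π x⟩
  have : Nonempty X := ⟨x⟩
  obtain ⟨S4, hsub, hS4, hnet⟩ := exists_max_sep (S3.image π) (τ / 3) (by linarith)
  have hlift : ∀ z ∈ S4, ∃ y ∈ S3, π y = z := fun z hz => Finset.mem_image.1 (hsub hz)
  have hle : ∀ y w : X, dist (π y) (π w) ≤ dist y w := by
    intro y w
    have := hc.le y w 0
    rwa [zero_vadd] at this
  refine ⟨S4, ?_, hS4, ?_⟩
  · intro z hz
    obtain ⟨y, hy, rfl⟩ := hlift z hz
    exact (hle y x).trans (hball y hy)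
  · choose! g hg hgz using hlift
    have hnet' : ∀ y ∈ S3, ∃ z ∈ S4, dist (π y) z < τ / 3 := fun y hy =>
      hnet (π y) (Finset.mem_image_of_mem π hy)
    choose! zz hzz hdz using hnet'
    have hk : ∀ y : X, ∃ k : Fin n → ℤ, dist y (k +ᵥ g (zz y)) = dist (π y) (π (g (zz y))) :=
      fun y => hc.lift y (g (zz y))
    choose kk hkk using hk
    have hclose : ∀ y ∈ S3, dist y (kk y +ᵥ g (zz y)) < τ / 3 := by
      intro y hy
      rw [hkk y, hgz (zz y) (hzz y hy)]
      exact hdz y hy
    have hfin : (Sh n x (3 * ρ)).Finite := hc.fin x x (3 * ρ)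
    have hShk : ∀ y ∈ S3, kk y ∈ Sh n x (3 * ρ) := by
      intro y hy
      change dist x (kk y +ᵥ x) ≤ 3 * ρ
      have h1 : dist x y ≤ ρ := by rw [dist_comm]; exact hball y hy
      have h2 := hclose y hy
      have h3 : dist (kk y +ᵥ g (zz y)) (kk y +ᵥ x) ≤ ρ := by
        rw [hc.isom]
        exact hball _ (hg _ (hzz y hy))
      have h4 := dist_triangle4 x y (kk y +ᵥ g (zz y)) (kk y +ᵥ x)
      linarith
    rw [Set.ncard_eq_toFinset_card _ hfin, ← Finset.card_product]
    refine Finset.card_le_card_of_injOn (fun y => (kk y, zz y)) ?_ ?_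
    · intro y hy
      refine Finset.mem_coe.2 (Finset.mem_product.2 ⟨?_, hzz y hy⟩)
      exact (Set.Finite.mem_toFinset hfin).2 (hShk y hy)
    · intro y hy y' hy' hyy
      have hk1 : kk y = kk y' := congrArg Prod.fst hyy
      have hz1 : zz y = zz y' := congrArg Prod.snd hyy
      by_contra hne
      have h1 := hsep y hy y' hy' hne
      have h2 := hclose y hy
      have h3 := hclose y' hy'
      rw [← hk1, ← hz1, dist_comm] at h3
      have h4 := dist_triangle y (kk y +ᵥ g (zz y)) y'
      linarith

end Pool.Agent.Helper34.CT
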